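import Mathlib
import Pool.Agent.N290.RJ.Stm
import Pool.Agent.N290.RJ.Un

/-!
# The involution of the ball: derivative and invariance of the metric (`C6`), every dimension

(helper136, after helper887 for the ball of `ℂ²`)
-/

set_option autoImplicit false

open Complex MeasureTheory Set Filter Topology

namespace Pool.Agent.N136.RJ

open Pool.Agent.N290.RJ

variable {d : ℕ}

theorem c6_sq (z : ℂ) : ‖z‖ ^ 2 = z.re ^ 2 + z.im ^ 2 := by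
  rw [← Complex.normSq_eq_norm_sq, Complex.normSq_apply]; ring

/-- the second part of the square of the norm -/
noncomputable def S2 (ξ : E d) : ℝ := ∑ i, ‖ξ.2 i‖ ^ 2

/-- the second part of the inner product -/
noncomputable def R2 (η ξ : E d) : ℂ := ∑ i, η.2 i * starRingEnd ℂ (ξ.2 i)

theorem S2_nonneg (ξ : E d) : 0 ≤ S2 ξ := by unfold S2; positivity

theorem c6_add (c : ℂ) (η ξ : E d) : ∑ i, ‖η.2 i + c * ξ.2 i‖ ^ 2 =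
    S2 η + 2 * (starRingEnd ℂ c * R2 η ξ).re + ‖c‖ ^ 2 * S2 ξ := by
  unfold S2 R2
  rw [Finset.mul_sum, Complex.re_sum, Finset.mul_sum, Finset.mul_sum, ← Finset.sum_add_distrib,
    ← Finset.sum_add_distrib]
  refine Finset.sum_congr rfl fun i _ => ?_
  simp only [c6_sq, Complex.add_re, Complex.add_im, Complex.mul_re, Complex.mul_im,
    Complex.conj_re, Complex.conj_im]
  ring

theorem c6_addR (c : ℂ) (η ξ : E d) : ∑ i, (η.2 i + c * ξ.2 i) * starRingEnd ℂ (ξ.2 i) =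
    R2 η ξ + c * ((S2 ξ : ℝ) : ℂ) := by
  unfold S2 R2
  push_cast
  rw [Finset.mul_sum, ← Finset.sum_add_distrib]
  refine Finset.sum_congr rfl fun i _ => ?_
  have := mulconj (ξ.2 i)
  push_cast at this
  rw [← this]
  ring

theorem c6_u {x : ℝ} (h0 : 0 ≤ x) (h1 : x < 1) {ξ : E d} (hξ : ξ ∈ B d) :
    (1 - (x : ℂ) * ξ.1) ≠ 0 := by
  intro h
  have h2 : (x : ℂ) * ξ.1 = 1 := (sub_eq_zero.1 h).symm
  have h3 : x * ‖ξ.1‖ = 1 := by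
    have := congrArg norm h2
    rwa [norm_mul, Complex.norm_real, Real.norm_of_nonneg h0, norm_one] at this
  have h4 : ‖ξ.1‖ ^ 2 < 1 := by
    have h5 : N ξ < 1 := hξ
    have h6 := S2_nonneg ξ
    unfold N at h5
    unfold S2 at h6
    linarith
  have h5 : ‖ξ.1‖ < 1 := by
    nlinarith [norm_nonneg ξ.1]
  nlinarith [norm_nonneg ξ.1]

theorem c6_one {x : ℝ} (h0 : 0 ≤ x) (h1 : x < 1) {ξ : E d} (hξ : ξ ∈ B d) :
    1 - N (Ph x ξ) = (1 - x ^ 2) * (1 - N ξ) / ‖1 - x * ξ.1‖ ^ 2 := by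
  have hu := c6_u h0 h1 hξ
  have hs : Real.sqrt (1 - x ^ 2) ^ 2 = 1 - x ^ 2 := Real.sq_sqrt (by nlinarith)
  have hu2 : ‖1 - (x : ℂ) * ξ.1‖ ^ 2 ≠ 0 := pow_ne_zero 2 (norm_ne_zero_iff.2 hu)
  rw [eq_div_iff hu2]
  have h2 : ‖1 - (x : ℂ) * ξ.1‖ ^ 2 - ‖(x : ℂ) - ξ.1‖ ^ 2 = (1 - x ^ 2) * (1 - ‖ξ.1‖ ^ 2) := by
    simp only [c6_sq, Complex.sub_re, Complex.sub_im, Complex.mul_re, Complex.mul_im,
      Complex.ofReal_re, Complex.ofReal_im, Complex.one_re, Complex.one_im]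
    ring
  have h3 : N (Ph x ξ) * ‖1 - (x : ℂ) * ξ.1‖ ^ 2 =
      ‖(x : ℂ) - ξ.1‖ ^ 2 + (1 - x ^ 2) * S2 ξ := by
    unfold N Ph S2
    simp only [Pi.smul_apply, smul_eq_mul, norm_div, norm_neg, norm_mul, Complex.norm_real,
      Real.norm_of_nonneg (Real.sqrt_nonneg _), div_pow, mul_pow, hs]
    rw [← Finset.mul_sum]
    field_simp
  rw [sub_mul, h3]
  have h4 : N ξ = ‖ξ.1‖ ^ 2 + S2 ξ := rfl
  rw [h4]
  linarith

theorem c6_mem {x : ℝ} (h0 : 0 ≤ x) (h1 : x < 1) {ξ : E d} (hξ : ξ ∈ B d) :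
    N (Ph x ξ) < 1 := by
  have h2 := c6_one h0 h1 hξ
  have hu := c6_u h0 h1 hξ
  have h3 : 0 < (1 - x ^ 2) * (1 - N ξ) / ‖1 - (x : ℂ) * ξ.1‖ ^ 2 := by
    have : 0 < 1 - N ξ := sub_pos.2 hξ
    have : 0 < 1 - x ^ 2 := by nlinarith
    have : 0 < ‖1 - (x : ℂ) * ξ.1‖ := norm_pos_iff.2 hu
    positivity
  linarith

theorem c6_line {x : ℝ} (h0 : 0 ≤ x) (h1 : x < 1) {ξ : E d} (hξ : ξ ∈ B d) (η : E d) :
    HasDerivAt (fun t : ℂ => Ph x (ξ + t • η)) (dPh x ξ η) 0 := by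
  have hu := c6_u h0 h1 hξ
  have e1 : HasDerivAt (fun t : ℂ => ξ.1 + t * η.1) η.1 0 := by
    simpa using ((hasDerivAt_id (0 : ℂ)).mul_const η.1).const_add ξ.1
  have e2 : HasDerivAt (fun t : ℂ => ξ.2 + t • η.2) η.2 0 := by
    simpa using ((hasDerivAt_id (0 : ℂ)).smul_const η.2).const_add ξ.2
  have e3 : HasDerivAt (fun t : ℂ => 1 - (x : ℂ) * (ξ.1 + t * η.1)) (-(x * η.1)) 0 :=
    (e1.const_mul (x : ℂ)).const_sub 1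
  have e4 : HasDerivAt (fun t : ℂ => (x : ℂ) - (ξ.1 + t * η.1)) (-η.1) 0 := e1.const_sub (x : ℂ)
  have hu' : (1 - (x : ℂ) * (ξ.1 + 0 * η.1)) ≠ 0 := by simpa using hu
  have f1 : HasDerivAt (fun t : ℂ => ((x : ℂ) - (ξ.1 + t * η.1)) / (1 - (x : ℂ) * (ξ.1 + t * η.1)))
      _ 0 := e4.div e3 hu'
  have e5 : HasDerivAt (fun t : ℂ => (-(Real.sqrt (1 - x ^ 2) : ℂ)) / (1 - (x : ℂ) * (ξ.1 + t * η.1)))
      _ 0 := (hasDerivAt_const (0 : ℂ) (-(Real.sqrt (1 - x ^ 2) : ℂ))).div e3 hu'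
  have f2 : HasDerivAt (fun t : ℂ => ((-(Real.sqrt (1 - x ^ 2) : ℂ)) /
      (1 - (x : ℂ) * (ξ.1 + t * η.1))) • (ξ.2 + t • η.2)) _ 0 := e5.smul e2
  have f3 := f1.prodMk f2
  have g : (fun t : ℂ => Ph x (ξ + t • η)) = fun t : ℂ =>
      (((x : ℂ) - (ξ.1 + t * η.1)) / (1 - (x : ℂ) * (ξ.1 + t * η.1)),
        ((-(Real.sqrt (1 - x ^ 2) : ℂ)) / (1 - (x : ℂ) * (ξ.1 + t * η.1))) • (ξ.2 + t • η.2)) := by
    funext t
    simp [Ph]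
  rw [g]
  refine f3.congr_deriv ?_
  unfold dPh
  simp only [zero_mul, add_zero, zero_smul, zero_sub]
  congr 1
  · field_simp
    ring
  · congr 2
    ring

theorem c6_diff {x : ℝ} (h0 : 0 ≤ x) (h1 : x < 1) {ξ : E d} (hξ : ξ ∈ B d) :
    DifferentiableAt ℂ (Ph x) ξ := by
  have hu := c6_u h0 h1 hξ
  unfold Ph
  have d1 : DifferentiableAt ℂ (fun ξ : E d => (x : ℂ) - ξ.1) ξ := by fun_prop
  have d2 : DifferentiableAt ℂ (fun ξ : E d => 1 - (x : ℂ) * ξ.1) ξ := by fun_prop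
  have d3 : DifferentiableAt ℂ (fun ξ : E d => ξ.2) ξ := by fun_prop
  have d4 : DifferentiableAt ℂ (fun ξ : E d => (1 - (x : ℂ) * ξ.1)⁻¹) ξ := d2.fun_inv hu
  simp only [div_eq_mul_inv]
  exact (d1.fun_mul d4).prodMk ((d4.const_mul _).fun_smul d3)

theorem c6_fderiv {x : ℝ} (h0 : 0 ≤ x) (h1 : x < 1) {ξ : E d} (hξ : ξ ∈ B d) (η : E d) :
    fderiv ℂ (Ph x) ξ η = dPh x ξ η := by
  have h2 := (c6_diff h0 h1 hξ).hasFDerivAt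
  have h3 : HasDerivAt (fun t : ℂ => ξ + t • η) η 0 := by
    simpa using ((hasDerivAt_id (0 : ℂ)).smul_const η).const_add ξ
  have h4 : HasFDerivAt (Ph x) (fderiv ℂ (Ph x) ξ) ((fun t : ℂ => ξ + t • η) 0) := by
    simpa using h2
  have h5 := h4.comp_hasDerivAt (0 : ℂ) h3
  exact h5.unique (c6_line h0 h1 hξ η)

/-- the polynomial identity -/
theorem c6_key (x p q : ℝ) (a b r : ℂ) :
    ((1 - x ^ 2) * ‖b‖ ^ 2 + ‖1 - (x : ℂ) * a‖ ^ 2 * q +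
        2 * x * (starRingEnd ℂ b * r * (1 - (x : ℂ) * a)).re + x ^ 2 * ‖b‖ ^ 2 * p) *
        (1 - (‖a‖ ^ 2 + p)) +
      ‖b * starRingEnd ℂ a + r - x * (b + a * r - b * (p : ℂ))‖ ^ 2 =
    ‖1 - (x : ℂ) * a‖ ^ 2 * ((‖b‖ ^ 2 + q) * (1 - (‖a‖ ^ 2 + p)) +
      ‖b * starRingEnd ℂ a + r‖ ^ 2) := by
  simp only [c6_sq, Complex.add_re, Complex.add_im, Complex.sub_re, Complex.sub_im,
    Complex.mul_re, Complex.mul_im, Complex.conj_re, Complex.conj_im, Complex.ofReal_re,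
    Complex.ofReal_im, Complex.one_re, Complex.one_im]
  ring

theorem c6_len {x : ℝ} (h0 : 0 ≤ x) (h1 : x < 1) {ξ : E d} (hξ : ξ ∈ B d) (η : E d) :
    len (Ph x ξ) (dPh x ξ η) = len ξ η := by
  have hu := c6_u h0 h1 hξ
  have hs : Real.sqrt (1 - x ^ 2) ^ 2 = 1 - x ^ 2 := Real.sq_sqrt (by nlinarith)
  have hsc : ((Real.sqrt (1 - x ^ 2) : ℝ) : ℂ) ^ 2 = 1 - (x : ℂ) ^ 2 := by
    rw [← Complex.ofReal_pow, hs]; push_cast; ring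
  unfold len len2
  congr 1
  rw [c6_one h0 h1 hξ]
  have hs0 : 0 ≤ Real.sqrt (1 - x ^ 2) := Real.sqrt_nonneg _
  have hNξ : N ξ = ‖ξ.1‖ ^ 2 + S2 ξ := rfl
  have hNη : N η = ‖η.1‖ ^ 2 + S2 η := rfl
  have hip : ip η ξ = η.1 * starRingEnd ℂ ξ.1 + R2 η ξ := rfl
  set s : ℝ := Real.sqrt (1 - x ^ 2) with hsdef
  have h1x : (1 - x ^ 2) ≠ 0 := by nlinarith
  have h1ξ : (1 - N ξ) ≠ 0 := (sub_pos.2 hξ).ne'
  have hu0 : ‖1 - (x : ℂ) * ξ.1‖ ^ 2 ≠ 0 := pow_ne_zero 2 (norm_ne_zero_iff.2 hu)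
  have hcu : starRingEnd ℂ (1 - (x : ℂ) * ξ.1) ≠ 0 := by rwa [Ne, map_eq_zero]
  have hUc : (1 - (x : ℂ) * ξ.1) * starRingEnd ℂ (1 - (x : ℂ) * ξ.1) =
      ((‖1 - (x : ℂ) * ξ.1‖ ^ 2 : ℝ) : ℂ) := mulconj _
  have hkey := c6_key x (S2 ξ) (S2 η) ξ.1 η.1 (R2 η ξ)
  -- the norm of the derivative
  have hN : N (dPh x ξ η) = (1 - x ^ 2) * ((1 - x ^ 2) * ‖η.1‖ ^ 2 + ‖1 - (x : ℂ) * ξ.1‖ ^ 2 * S2 η +
        2 * x * (starRingEnd ℂ η.1 * R2 η ξ * (1 - (x : ℂ) * ξ.1)).re +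
        x ^ 2 * ‖η.1‖ ^ 2 * S2 ξ) / (‖1 - (x : ℂ) * ξ.1‖ ^ 2) ^ 2 := by
    have h3 : ∀ i, ‖(dPh x ξ η).2 i‖ ^ 2 = (1 - x ^ 2) / ‖1 - (x : ℂ) * ξ.1‖ ^ 2 *
        ‖η.2 i + (x * η.1 / (1 - (x : ℂ) * ξ.1)) * ξ.2 i‖ ^ 2 := by
      intro i
      have e1 : (dPh x ξ η).2 i = (-(s : ℂ) / (1 - (x : ℂ) * ξ.1)) *
          (η.2 i + (x * η.1 / (1 - (x : ℂ) * ξ.1)) * ξ.2 i) := by
        simp only [dPh, ← hsdef, Pi.add_apply, Pi.smul_apply, smul_eq_mul]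
        field_simp
        ring
      rw [e1, norm_mul, mul_pow, norm_div, norm_neg, Complex.norm_real, Real.norm_of_nonneg hs0,
        div_pow, hs]
    have h4 : ‖(dPh x ξ η).1‖ ^ 2 = (1 - x ^ 2) ^ 2 * ‖η.1‖ ^ 2 / (‖1 - (x : ℂ) * ξ.1‖ ^ 2) ^ 2 := by
      have e1 : (dPh x ξ η).1 = -(((s : ℂ) ^ 2 * η.1) / (1 - (x : ℂ) * ξ.1) ^ 2) := by
        simp only [dPh]
        rw [hsc]; ring
      rw [e1, norm_neg, norm_div, norm_mul, norm_pow, norm_pow, Complex.norm_real,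
        Real.norm_of_nonneg hs0, hs, div_pow, mul_pow]
    have h5 : (starRingEnd ℂ (x * η.1 / (1 - (x : ℂ) * ξ.1)) * R2 η ξ).re =
        x * (starRingEnd ℂ η.1 * R2 η ξ * (1 - (x : ℂ) * ξ.1)).re / ‖1 - (x : ℂ) * ξ.1‖ ^ 2 := by
      rw [eq_div_iff hu0]
      have e1 : starRingEnd ℂ (x * η.1 / (1 - (x : ℂ) * ξ.1)) * R2 η ξ *
          ((‖1 - (x : ℂ) * ξ.1‖ ^ 2 : ℝ) : ℂ) =
          (x : ℂ) * (starRingEnd ℂ η.1 * R2 η ξ * (1 - (x : ℂ) * ξ.1)) := by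
        rw [← hUc, map_div₀, map_mul, Complex.conj_ofReal]
        field_simp
      have e2 := congrArg Complex.re e1
      rwa [Complex.re_mul_ofReal, Complex.re_ofReal_mul] at e2
    have h6 : ‖x * η.1 / (1 - (x : ℂ) * ξ.1)‖ ^ 2 =
        x ^ 2 * ‖η.1‖ ^ 2 / ‖1 - (x : ℂ) * ξ.1‖ ^ 2 := by
      rw [norm_div, norm_mul, Complex.norm_real, Real.norm_of_nonneg h0, div_pow, mul_pow]
    unfold N
    simp only [h3]
    rw [← Finset.mul_sum, c6_add, h4, h5, h6]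
    field_simp
    ring
  -- the inner product
  have hI : ‖ip (dPh x ξ η) (Ph x ξ)‖ ^ 2 = (1 - x ^ 2) ^ 2 *
      ‖η.1 * starRingEnd ℂ ξ.1 + R2 η ξ - x * (η.1 + ξ.1 * R2 η ξ - η.1 * (S2 ξ : ℂ))‖ ^ 2 /
        (‖1 - (x : ℂ) * ξ.1‖ ^ 2) ^ 3 := by
    have h3 : ∑ i, (dPh x ξ η).2 i * starRingEnd ℂ ((Ph x ξ).2 i) =
        (s : ℂ) ^ 2 / ((1 - (x : ℂ) * ξ.1) * starRingEnd ℂ (1 - (x : ℂ) * ξ.1)) *
          (R2 η ξ + (x * η.1 / (1 - (x : ℂ) * ξ.1)) * ((S2 ξ : ℝ) : ℂ)) := by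
      rw [← c6_addR, Finset.mul_sum]
      refine Finset.sum_congr rfl fun i _ => ?_
      simp only [dPh, Ph, ← hsdef, Pi.add_apply, Pi.smul_apply, smul_eq_mul, map_mul, map_div₀,
        map_neg, Complex.conj_ofReal]
      field_simp
      ring
    have h4 : ip (dPh x ξ η) (Ph x ξ) = (s : ℂ) ^ 2 *
        (η.1 * starRingEnd ℂ ξ.1 + R2 η ξ - x * (η.1 + ξ.1 * R2 η ξ - η.1 * (S2 ξ : ℂ))) /
        ((1 - (x : ℂ) * ξ.1) ^ 2 * starRingEnd ℂ (1 - (x : ℂ) * ξ.1)) := by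
      unfold ip
      rw [h3]
      have e1 : (dPh x ξ η).1 * starRingEnd ℂ ((Ph x ξ).1) =
          -((s : ℂ) ^ 2 * η.1) / (1 - (x : ℂ) * ξ.1) ^ 2 *
            (((x : ℂ) - starRingEnd ℂ ξ.1) / starRingEnd ℂ (1 - (x : ℂ) * ξ.1)) := by
        simp only [dPh, Ph, map_div₀, map_sub, Complex.conj_ofReal]
        rw [hsc]
      rw [e1]
      field_simp
      ring
    rw [h4, norm_div, norm_mul, norm_mul, norm_pow, norm_pow, Complex.norm_real,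
      Real.norm_of_nonneg hs0, hs, RCLike.norm_conj, div_pow, mul_pow]
    congr 1
    ring
  rw [hN, hI, hip, hNη]
  rw [← hNξ] at hkey
  set U := ‖1 - (x : ℂ) * ξ.1‖ ^ 2 with hU
  set W := (1 - x ^ 2) * ‖η.1‖ ^ 2 + U * S2 η +
        2 * x * (starRingEnd ℂ η.1 * R2 η ξ * (1 - (x : ℂ) * ξ.1)).re +
        x ^ 2 * ‖η.1‖ ^ 2 * S2 ξ with hW
  set X := ‖η.1 * starRingEnd ℂ ξ.1 + R2 η ξ - x * (η.1 + ξ.1 * R2 η ξ - η.1 * (S2 ξ : ℂ))‖ ^ 2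
    with hX
  have e1 : (1 - x ^ 2) * W / U ^ 2 / ((1 - x ^ 2) * (1 - N ξ) / U) +
      (1 - x ^ 2) ^ 2 * X / U ^ 3 / ((1 - x ^ 2) * (1 - N ξ) / U) ^ 2 =
      (W * (1 - N ξ) + X) / (U * (1 - N ξ) ^ 2) := by
    field_simp
  rw [e1, hkey]
  field_simp

theorem c6_ip {x : ℝ} (h0 : 0 ≤ x) (h1 : x < 1) {ξ : E d} (hξ : ξ ∈ B d) :
    1 - ip ((x : ℂ), 0) (Ph x ξ) = (1 - x ^ 2) / starRingEnd ℂ (1 - x * ξ.1) := by
  have hu := c6_u h0 h1 hξ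
  have hu' : starRingEnd ℂ (1 - (x : ℂ) * ξ.1) ≠ 0 := by
    rwa [Ne, map_eq_zero]
  rw [eq_div_iff hu']
  unfold ip Ph
  simp only [Pi.zero_apply, zero_mul, Finset.sum_const_zero, add_zero, map_div₀]
  rw [sub_mul, one_mul, mul_assoc, div_mul_cancel₀ _ hu']
  simp only [map_sub, map_mul, map_one, Complex.conj_ofReal]
  ring

theorem t_C6 (d : ℕ) : C6 d := by
  intro x h0 h1 ξ hξ
  refine ⟨c6_diff h0 h1 hξ, fun η => c6_fderiv h0 h1 hξ η, c6_one h0 h1 hξ,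
    fun η => c6_len h0 h1 hξ η, c6_ip h0 h1 hξ, ?_⟩
  unfold Dl
  have hx : N (((x : ℂ), (0 : Fin d → ℂ)) : E d) = x ^ 2 := by
    unfold N
    simp
  rw [c6_ip h0 h1 hξ, c6_one h0 h1 hξ, hx, norm_div, RCLike.norm_conj]
  have h3 : ‖(1 : ℂ) - (x : ℂ) ^ 2‖ = 1 - x ^ 2 := by
    have : (1 : ℂ) - (x : ℂ) ^ 2 = ((1 - x ^ 2 : ℝ) : ℂ) := by push_cast; ring
    rw [this, Complex.norm_real, Real.norm_of_nonneg (by nlinarith)]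
  rw [h3]
  ring

end Pool.Agent.N136.RJ
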